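import Pool.Agent.Helper99.LZ.Bridge

/-!
PROJECT C2 (MP_2b0227_gt), packet MT-OPE: the two definitions of one-positivity.
-/

set_option autoImplicit false

namespace Pool.Agent.Helper33.LZ

open Pool.Agent.Helper99.LZ Pool.Agent.Helper52.C2

theorem bil_apply {ι : Type} [Fintype ι] (M : ι → ι → ℝ) (u v : ι → ℝ) :
    bil M u v = ∑ a, ∑ b, u a * M a b * v b := rfl

theorem quad_eq_bil {ι : Type} [Fintype ι] (M : ι → ι → ℝ) (v : ι → ℝ) :
    quad M v = bil M v v := rfl

theorem bil_comm {ι : Type} [Fintype ι] {M : ι → ι → ℝ} (hM : ∀ a b, M a b = M b a)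
    (u v : ι → ℝ) : bil M u v = bil M v u := by
  rw [bil_apply, bil_apply, Finset.sum_comm]
  refine Finset.sum_congr rfl fun a _ => Finset.sum_congr rfl fun b _ => ?_
  rw [hM b a]; ring

theorem bil_sub_smul {ι : Type} [Fintype ι] {M : ι → ι → ℝ} (hM : ∀ a b, M a b = M b a)
    (u v : ι → ℝ) (t : ℝ) : bil M (v - t • u) (v - t • u) =
      bil M v v - 2 * t * bil M u v + t ^ 2 * bil M u u := by
  simp only [map_sub, map_smul, LinearMap.sub_apply, LinearMap.smul_apply, smul_eq_mul]
  rw [bil_comm hM v u]
  ring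

theorem ope : StmtOPE := by
  intro ι _ ok M hM
  constructor
  · rintro ⟨l, hl⟩ u v hu hv hpos
    have hLu : ∑ a, l a * u a ≠ 0 := by
      intro h0
      have := hl u hu h0
      rw [quad_eq_bil] at this
      linarith
    set t : ℝ := (∑ a, l a * v a) / (∑ a, l a * u a) with ht
    have hw : quad M (v - t • u) ≤ 0 := by
      apply hl
      · intro a ha
        simp [hu a ha, hv a ha]
      · have e : ∑ a, l a * (v - t • u) a = (∑ a, l a * v a) - t * ∑ a, l a * u a := by
          rw [Finset.mul_sum, ← Finset.sum_sub_distrib]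
          refine Finset.sum_congr rfl fun a _ => ?_
          simp only [Pi.sub_apply, Pi.smul_apply, smul_eq_mul]
          ring
        rw [e, ht, div_mul_cancel₀ _ hLu, sub_self]
    rw [quad_eq_bil, bil_sub_smul hM] at hw
    have h1 : bil M u u * (bil M v v - 2 * t * bil M u v + t ^ 2 * bil M u u) ≤ 0 :=
      mul_nonpos_of_nonneg_of_nonpos hpos.le hw
    nlinarith [sq_nonneg (bil M u v - t * bil M u u)]
  · intro h
    by_cases hex : ∃ u : ι → ℝ, (∀ a, ¬ ok a → u a = 0) ∧ 0 < bil M u u
    · obtain ⟨u, hu, hpos⟩ := hex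
      refine ⟨fun a => ∑ b, u b * M b a, ?_⟩
      intro v hv h0
      have e : bil M u v = 0 := by
        rw [bil_apply, Finset.sum_comm, ← h0]
        refine Finset.sum_congr rfl fun a _ => ?_
        rw [Finset.sum_mul]
      have := h u v hu hv hpos
      rw [e] at this
      rw [quad_eq_bil]
      by_contra hc
      push Not at hc
      have := mul_pos hpos hc
      linarith
    · push Not at hex
      refine ⟨fun _ => 0, ?_⟩
      intro v hv _
      rw [quad_eq_bil]
      exact hex v hv

end Pool.Agent.Helper33.LZ
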